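import Mathlib

/-!
# Transitivity of `x ↦ βx + α mod 1` for small slopes
-/

set_option autoImplicit false

namespace Pool.Agent.Results.MP_ea58a7_an.SmallSlopes

open Set Filter Topology

/-- The map `T(x) = βx + α mod 1`. -/
noncomputable def T (α β : ℝ) (x : ℝ) : ℝ := Int.fract (β * x + α)

/-- The map `T` on `[0,1)` is topologically transitive: for nonempty relatively open subsets
`U ∩ [0,1)` and `V ∩ [0,1)` some image of the first meets the second. -/
def TopologicallyTransitive (α β : ℝ) : Prop :=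
  ∀ U V : Set ℝ, IsOpen U → IsOpen V → (U ∩ Ico 0 1).Nonempty → (V ∩ Ico 0 1).Nonempty →
    ∃ n : ℕ, (((T α β)^[n] '' (U ∩ Ico 0 1)) ∩ (V ∩ Ico 0 1)).Nonempty

lemma glue {D : Set ℝ} (hD : IsClosed D) {x y y' z : ℝ} (hxy : x < y) (hy : y' ≤ y)
    (h1 : Ioo x y ⊆ D) (h2 : Ioo y' z ⊆ D) : Ioo x z ⊆ D := by
  intro w hw
  rcases lt_trichotomy w y with h | h | h
  · exact h1 ⟨hw.1, h⟩
  · rw [h]
    have h3 : closure (Ioo x y) ⊆ D := hD.closure_subset_iff.mpr h1
    rw [closure_Ioo hxy.ne] at h3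
    exact h3 ⟨hxy.le, le_rfl⟩
  · exact h2 ⟨lt_of_le_of_lt hy h, hw.2⟩

/-- the orbit of `0` -/
noncomputable def s (α β : ℝ) : ℕ → ℝ
  | 0 => 0
  | n + 1 => β * s α β n + α

/-- the orbit of `1` -/
noncomputable def r (α β : ℝ) : ℕ → ℝ
  | 0 => β + α - 1
  | n + 1 => β * r α β n + α

section
variable {α β : ℝ}

lemma s_nonneg (hβ : 1 < β) (hα : 0 ≤ α) (n : ℕ) : 0 ≤ s α β n := by
  induction n with
  | zero => exact le_rfl
  | succ n ih => simp only [s]; nlinarith

lemma s_le_succ (hβ : 1 < β) (hα : 0 ≤ α) (n : ℕ) : s α β n ≤ s α β (n + 1) := by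
  have := s_nonneg hβ hα n
  simp only [s]; nlinarith

lemma s_le_r (hβ : 1 < β) (hreg : β * α ≤ β - 1) (n : ℕ) : s α β (n + 2) ≤ r α β n := by
  induction n with
  | zero => simp only [s, r]; nlinarith
  | succ n ih =>
    have e1 : s α β (n + 1 + 2) = β * s α β (n + 2) + α := rfl
    have e2 : r α β (n + 1) = β * r α β n + α := rfl
    rw [e1, e2]
    nlinarith

lemma r_ge (hβ : 1 < β) (hα : 0 ≤ α) (n : ℕ) : (β - 1) * β ^ n ≤ r α β n := by
  induction n with
  | zero => simp only [r, pow_zero]; linarith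
  | succ n ih =>
    simp only [r]
    rw [pow_succ]
    nlinarith

lemma r_le (hβ : 1 < β) (hreg : β * α ≤ β - 1) (n : ℕ) : β * r α β n ≤ β ^ (n + 2) - 1 := by
  induction n with
  | zero =>
    have e : β ^ (0 + 2) = β * β := by ring
    simp only [r]; rw [e]; linarith
  | succ n ih =>
    have e : β ^ (n + 1 + 2) = β * β ^ (n + 2) := by rw [pow_succ β (n + 2)]; ring
    have h : β * (β * r α β n) ≤ β * (β ^ (n + 2) - 1) :=
      mul_le_mul_of_nonneg_left ih (by linarith)
    simp only [r]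
    rw [e]
    linarith

/-- The main argument. -/
theorem main (hβ : 1 < β) (hβ2 : β ^ 2 ≤ 2) (hα : 0 ≤ α) (hreg : β * α ≤ β - 1) (c : ℝ)
    (hc : β * c + α = 1) (D : Set ℝ) (hD : IsClosed D)
    (h1 : ∀ u v : ℝ, 0 ≤ u → u < v → v ≤ c → Ioo u v ⊆ D → Ioo (β * u + α) (β * v + α) ⊆ D)
    (h2 : ∀ u v : ℝ, c ≤ u → u < v → v ≤ 1 → Ioo u v ⊆ D →
      Ioo (β * u + α - 1) (β * v + α - 1) ⊆ D)
    (hne : ∃ u v : ℝ, 0 ≤ u ∧ u < v ∧ v ≤ 1 ∧ Ioo u v ⊆ D) : Ioo 0 1 ⊆ D := by
  have hβ0 : 0 < β := by linarith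
  have hβ3 : β ≤ 3 / 2 := by nlinarith
  have hα1 : α < 1 := by nlinarith
  have hc0 : 0 < c := by
    by_contra h; push Not at h; nlinarith
  have hc1 : c < 1 := by
    by_contra h; push Not at h; nlinarith
  have hαc : α < c := by
    by_contra h; push Not at h
    have : β * c ≤ β * α := mul_le_mul_of_nonneg_left h hβ0.le
    nlinarith
  have hαβ : α + β ≤ 2 := by nlinarith
  have hI1 : ∀ u : ℝ, 0 ≤ u → u ≤ c → 0 ≤ β * u + α ∧ β * u + α ≤ 1 := by
    intro u hu huc
    have h3 := mul_le_mul_of_nonneg_left huc hβ0.le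
    have h4 := mul_nonneg hβ0.le hu
    constructor <;> linarith
  have hI2 : ∀ u : ℝ, c ≤ u → u ≤ 1 → 0 ≤ β * u + α - 1 ∧ β * u + α - 1 ≤ 1 := by
    intro u hu huc
    have h3 := mul_le_mul_of_nonneg_left hu hβ0.le
    have h4 := mul_le_mul_of_nonneg_left huc hβ0.le
    constructor <;> linarith
  -- the longest interval
  set K : Set (ℝ × ℝ) := {x | 0 ≤ x.1 ∧ x.1 ≤ x.2 ∧ x.2 ≤ 1 ∧ Ioo x.1 x.2 ⊆ D} with hK
  have hKclosed : IsClosed K := by
    rw [← isSeqClosed_iff_isClosed]
    intro x l hx hl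
    have hl1 : Tendsto (fun n => (x n).1) atTop (𝓝 l.1) := (continuous_fst.tendsto _).comp hl
    have hl2 : Tendsto (fun n => (x n).2) atTop (𝓝 l.2) := (continuous_snd.tendsto _).comp hl
    refine ⟨ge_of_tendsto' hl1 fun n => (hx n).1, le_of_tendsto_of_tendsto' hl1 hl2 fun n =>
      (hx n).2.1, le_of_tendsto' hl2 fun n => (hx n).2.2.1, ?_⟩
    intro w hw
    have e1 := hl1.eventually (gt_mem_nhds hw.1)
    have e2 := hl2.eventually (lt_mem_nhds hw.2)
    obtain ⟨n, hn1, hn2⟩ := (e1.and e2).exists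
    exact (hx n).2.2.2 ⟨hn1, hn2⟩
  have hKcompact : IsCompact K := by
    refine (isCompact_Icc (a := ((0:ℝ), (0:ℝ))) (b := ((1:ℝ), (1:ℝ)))).of_isClosed_subset hKclosed ?_
    rintro ⟨u, v⟩ ⟨hu, huv, hv, -⟩
    simp only at hu huv hv
    exact ⟨⟨hu, hu.trans huv⟩, ⟨huv.trans hv, hv⟩⟩
  obtain ⟨u0, v0, hu0, huv0, hv0, hD0⟩ := hne
  obtain ⟨⟨a, b⟩, hab, hmax⟩ := hKcompact.exists_isMaxOn (f := fun x : ℝ × ℝ => x.2 - x.1)
    ⟨(u0, v0), hu0, huv0.le, hv0, hD0⟩ (by fun_prop)
  obtain ⟨ha0, hab', hb1, habD⟩ := hab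
  simp only at ha0 hab' hb1 habD
  have hmax' : ∀ u v : ℝ, 0 ≤ u → u ≤ v → v ≤ 1 → Ioo u v ⊆ D → v - u ≤ b - a := by
    intro u v hu huv hv h
    have := hmax (show (u, v) ∈ K from ⟨hu, huv, hv, h⟩)
    exact this
  have hL : 0 < b - a := by
    have := hmax' u0 v0 hu0 huv0.le hv0 hD0
    linarith
  have hlen1 : ∀ u v : ℝ, 0 ≤ u → u < v → v ≤ c → Ioo u v ⊆ D → β * (v - u) ≤ b - a := by
    intro u v hu huv hv h
    have h3 := hmax' _ _ (hI1 u hu (huv.le.trans hv)).1
      (by have := mul_le_mul_of_nonneg_left huv.le hβ0.le; linarith)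
      (hI1 v (hu.trans huv.le) hv).2 (h1 u v hu huv hv h)
    linarith
  have hlen2 : ∀ u v : ℝ, c ≤ u → u < v → v ≤ 1 → Ioo u v ⊆ D → β * (v - u) ≤ b - a := by
    intro u v hu huv hv h
    have h3 := hmax' _ _ (hI2 u hu (huv.le.trans hv)).1
      (by have := mul_le_mul_of_nonneg_left huv.le hβ0.le; linarith)
      (hI2 v (hu.trans huv.le) hv).2 (h2 u v hu huv hv h)
    linarith
  have hLβ : b - a < β * (b - a) := by
    have := mul_lt_mul_of_pos_right hβ hL
    linarith
  -- it contains c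
  have hac : a < c := by
    by_contra h; push Not at h
    have h3 := hlen2 a b h (by linarith) hb1 habD
    linarith
  have hcb : c < b := by
    by_contra h; push Not at h
    have h3 := hlen1 a b ha0 (by linarith) h habD
    linarith
  have hmerge : ∀ u v : ℝ, 0 ≤ u → u < c → c < v → v ≤ 1 → Ioo u v ⊆ D → a ≤ u ∧ v ≤ b := by
    intro u v hu huc hcv hv h
    have h3 : Ioo (min a u) (max b v) ⊆ D := by
      intro w hw
      rcases le_total w c with hwc | hwc
      · rcases min_lt_iff.mp hw.1 with h4 | h4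
        · exact habD ⟨h4, lt_of_le_of_lt hwc hcb⟩
        · exact h ⟨h4, lt_of_le_of_lt hwc hcv⟩
      · rcases lt_max_iff.mp hw.2 with h4 | h4
        · exact habD ⟨lt_of_lt_of_le hac hwc, h4⟩
        · exact h ⟨lt_of_lt_of_le huc hwc, h4⟩
    have h5 := hmax' _ _ (le_min ha0 hu) ((min_le_left _ _).trans (hab'.trans (le_max_left _ _)))
      (max_le hb1 hv) h3
    constructor
    · have := le_max_left b v
      have := min_le_right a u
      linarith
    · have := le_max_right b v
      have := min_le_left a u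
      linarith
  -- the two images
  set q := β * b + α - 1 with hq
  set p := β * a + α with hp
  have hqD : Ioo 0 q ⊆ D := by
    have h3 := h2 c b le_rfl hcb hb1 (fun w hw => habD ⟨hac.trans hw.1, hw.2⟩)
    rwa [hc, sub_self] at h3
  have hpD : Ioo p 1 ⊆ D := by
    have h3 := h1 a c ha0 hac le_rfl (fun w hw => habD ⟨hw.1, hw.2.trans hcb⟩)
    rwa [hc] at h3
  have hq' : q = β * (b - c) := by rw [hq]; linarith
  have hp' : 1 - p = β * (c - a) := by rw [hp]; linarith
  have hq0 : 0 < q := by rw [hq']; exact mul_pos hβ0 (by linarith)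
  have hp1 : p < 1 := by
    have : 0 < β * (c - a) := mul_pos hβ0 (by linarith)
    linarith
  have hq1 : q ≤ 1 := (hI2 b hcb.le hb1).2
  -- the time m
  have hex : ∃ n, c < r α β n := by
    obtain ⟨n, hn⟩ := pow_unbounded_of_one_lt (c / (β - 1)) hβ
    refine ⟨n, ?_⟩
    have := r_ge hβ hα n
    rw [div_lt_iff₀ (by linarith)] at hn
    linarith
  set m := Nat.find hex with hm
  have hmr : c < r α β m := Nat.find_spec hex
  have hmin : ∀ i, i < m → r α β i ≤ c := fun i hi => not_lt.mp (Nat.find_min hex hi)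
  have hr0 : ∀ i, 0 < r α β i := by
    intro i
    have h3 := r_ge hβ hα i
    have : 0 < (β - 1) * β ^ i := mul_pos (by linarith) (by positivity)
    linarith
  have hrm1 : r α β m ≤ 1 := by
    rcases Nat.eq_zero_or_pos m with h | h
    · rw [h]; simp only [r]; linarith
    · obtain ⟨k, hk⟩ := Nat.exists_eq_succ_of_ne_zero h.ne'
      rw [hk]
      have h3 := hmin k (by omega)
      exact (hI1 _ ((mul_nonneg (by linarith) (pow_nonneg hβ0.le k)).trans (r_ge hβ hα k)) h3).2
  have hpow : 1 + β < β ^ (m + 3) := by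
    have h3 := r_le hβ hreg m
    have h4 : β * (β * c) < β * (β * r α β m) :=
      mul_lt_mul_of_pos_left (mul_lt_mul_of_pos_left hmr hβ0) hβ0
    have h5 : β * (β * r α β m) ≤ β * (β ^ (m + 2) - 1) := mul_le_mul_of_nonneg_left h3 hβ0.le
    have h6 : β ^ (m + 3) = β * β ^ (m + 2) := by rw [pow_succ]; ring
    have h7 : β * (β * c) = β - β * α := by
      have : β * c = 1 - α := by linarith
      rw [this]; ring
    nlinarith
  -- the case b = 1
  rcases hb1.lt_or_eq with hb | hb
  swap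
  · have h3 : ∀ i, i ≤ m → Ioo 0 (r α β i) ⊆ D := by
      intro i
      induction i with
      | zero =>
        intro _
        have : q = r α β 0 := by rw [hq, hb]; simp only [r]; ring
        rw [← this]; exact hqD
      | succ i ih =>
        intro hi
        have h4 := ih (by omega)
        have h5 := h1 0 (r α β i) le_rfl (hr0 i) (hmin i (by omega)) h4
        rw [mul_zero, zero_add] at h5
        have h6 : α ≤ r α β i := by
          have h7 := s_le_r hβ hreg i
          have h8 : s α β 1 = α := by simp [s]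
          have h9 : s α β 1 ≤ s α β (i + 2) :=
            monotone_nat_of_le_succ (s_le_succ hβ hα) (by omega)
          linarith
        exact glue hD (hr0 i) h6 h4 h5
    have h4 := h3 m le_rfl
    rw [hb] at habD
    exact glue hD (hr0 m) (hac.trans hmr).le h4 habD
  · exfalso
    have hpb : b < p := by
      by_contra h; push Not at h
      have h3 := glue hD (by linarith : a < b) h habD hpD
      have h4 := hmax' a 1 ha0 (by linarith) le_rfl h3
      linarith
    have hqc : q ≤ c := by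
      by_contra h; push Not at h
      have h3 := hmerge 0 q le_rfl hc0 h hq1 hqD
      have h4 : a = 0 := le_antisymm h3.1 ha0
      rw [hp, h4] at hpb
      linarith
    -- images of (0, q)
    set e : ℕ → ℝ := fun i => s α β i + β ^ i * q with he
    have hes : ∀ i, e (i + 1) = β * e i + α := by
      intro i; simp only [he, s]; rw [pow_succ]; ring
    have hse : ∀ i, s α β i < e i := by
      intro i; simp only [he]
      have : 0 < β ^ i * q := by positivity
      linarith
    have hA : ∀ i, i ≤ m → Ioo (s α β i) (e i) ⊆ D ∧ e i ≤ c := by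
      intro i
      induction i with
      | zero =>
        intro _
        simp only [he, s, pow_zero, one_mul, zero_add]
        exact ⟨hqD, hqc⟩
      | succ i ih =>
        intro hi
        obtain ⟨h3, h4⟩ := ih (by omega)
        have h5 := h1 _ _ (s_nonneg hβ hα i) (hse i) h4 h3
        have h6 : Ioo (s α β (i + 1)) (e (i + 1)) ⊆ D := by rw [hes]; exact h5
        refine ⟨h6, ?_⟩
        by_contra h; push Not at h
        have h7 : s α β (i + 2) ≤ c := (s_le_r hβ hreg i).trans (hmin i (by omega))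
        have h7' : β * s α β (i + 1) + α ≤ c := h7
        have h8 : s α β (i + 1) < c := by
          by_contra h9; push Not at h9
          have := mul_le_mul_of_nonneg_left h9 hβ0.le
          linarith
        have h9 : e (i + 1) ≤ 1 := by
          rw [hes]; exact (hI1 _ ((s_nonneg hβ hα i).trans (hse i).le) h4).2
        have h10 := hmerge _ _ (s_nonneg hβ hα _) h8 h h9 h6
        have h11 := mul_le_mul_of_nonneg_left h10.1 hβ0.le
        linarith
    have hAm := hA m le_rfl
    have hAM : Ioo (s α β (m + 1)) (e (m + 1)) ⊆ D := by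
      have := h1 _ _ (s_nonneg hβ hα m) (hse m) hAm.2 hAm.1
      rw [hes]; exact this
    have heM1 : e (m + 1) ≤ 1 := by
      rw [hes]; exact (hI1 _ ((s_nonneg hβ hα m).trans (hse m).le) hAm.2).2
    have hlenA : β ^ (m + 1) * q ≤ b - a := by
      have := hmax' _ _ (s_nonneg hβ hα _) (hse _).le heM1 hAM
      simp only [he] at this
      linarith
    -- images of (p, 1)
    set f : ℕ → ℝ := fun i => r α β i - β ^ (i + 1) * (1 - p) with hf
    have hfs : ∀ i, f (i + 1) = β * f i + α := by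
      intro i; simp only [hf, r]; rw [pow_succ β (i + 1)]; ring
    have hfr : ∀ i, f i < r α β i := by
      intro i; simp only [hf]
      have : 0 < β ^ (i + 1) * (1 - p) := mul_pos (by positivity) (by linarith)
      linarith
    have hf0 : f 0 = β * p + α - 1 := by simp only [hf, r]; ring
    have hfnn : ∀ i, 0 ≤ f i := by
      intro i
      induction i with
      | zero => rw [hf0]; exact (hI2 p (by linarith) hp1.le).1
      | succ i ih => rw [hfs]; exact add_nonneg (mul_nonneg hβ0.le ih) hα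
    have hB : ∀ i, i ≤ m → Ioo (f i) (r α β i) ⊆ D := by
      intro i
      induction i with
      | zero =>
        intro _
        have h3 := h2 p 1 (by linarith) hp1 le_rfl hpD
        rw [hf0]
        have : r α β 0 = β * 1 + α - 1 := by simp only [r]; ring
        rw [this]; exact h3
      | succ i ih =>
        intro hi
        have h3 := h1 _ _ (hfnn i) (hfr i) (hmin i (by omega)) (ih (by omega))
        rw [hfs]; exact h3
    have hBm := hB m le_rfl
    have hlenB : β ^ (m + 1) * (1 - p) ≤ b - a := by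
      have := hmax' _ _ (hfnn m) (hfr m).le hrm1 hBm
      simp only [hf] at this
      linarith
    set P := β ^ (m + 1) with hP
    have hP0 : 0 < P := by positivity
    have hP3 : β ^ (m + 3) = P * β ^ 2 := by rw [hP, ← pow_add]
    rw [hP3] at hpow
    have hlen : (1 + β) * (b - a) < P * β ^ 2 * (b - a) := mul_lt_mul_of_pos_right hpow hL
    have hsum : P * β ^ 2 * (b - a) = β * (P * q) + β * (P * (1 - p)) := by
      rw [hq', hp']; ring
    have h6q : β * (P * q) ≤ β * (b - a) := mul_le_mul_of_nonneg_left hlenA hβ0.le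
    have h6p : β * (P * (1 - p)) ≤ β * (b - a) := mul_le_mul_of_nonneg_left hlenB hβ0.le
    have heq : e (m + 1) - s α β (m + 1) = P * q := by simp only [he]; ring
    have hfq : r α β m - f m = P * (1 - p) := by simp only [hf]; ring
    -- the alternatives
    by_cases hcase1 : s α β (m + 1) < c ∧ c < e (m + 1)
    · by_cases hcase2 : f m < c
      · have h3 := hmerge _ _ (s_nonneg hβ hα _) hcase1.1 hcase1.2 heM1 hAM
        have h4 := hmerge _ _ (hfnn m) hcase2 hmr hrm1 hBm
        have h5 := s_le_r hβ hreg m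
        have h6 : s α β (m + 2) = β * s α β (m + 1) + α := rfl
        have h7 := mul_le_mul_of_nonneg_left h3.1 hβ0.le
        linarith [h4.2]
      · push Not at hcase2
        have h3 := hlen2 _ _ hcase2 (hfr m) hrm1 hBm
        rw [hfq] at h3
        linarith
    · have h3 : β * (P * q) ≤ b - a := by
        rw [← heq]
        rcases le_or_gt (e (m + 1)) c with h | h
        · exact hlen1 _ _ (s_nonneg hβ hα _) (hse _) h hAM
        · have h4 : c ≤ s α β (m + 1) := by
            by_contra h5; push Not at h5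
            exact hcase1 ⟨h5, h⟩
          exact hlen2 _ _ h4 (hse _) heM1 hAM
      linarith

end

/-- the full orbit of `U` -/
def W (α β : ℝ) (U : Set ℝ) : Set ℝ := ⋃ n : ℕ, (T α β)^[n] '' (U ∩ Ico 0 1)

lemma T_mem (α β x : ℝ) : T α β x ∈ Ico (0:ℝ) 1 := ⟨Int.fract_nonneg _, Int.fract_lt_one _⟩

lemma W_sub (α β : ℝ) (U : Set ℝ) : W α β U ⊆ Ico 0 1 := by
  intro y hy
  rw [W, mem_iUnion] at hy
  obtain ⟨n, x, hx, rfl⟩ := hy
  cases n with
  | zero => exact hx.2
  | succ n => rw [Function.iterate_succ_apply']; exact T_mem _ _ _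

lemma W_inv (α β : ℝ) (U : Set ℝ) {x : ℝ} (hx : x ∈ W α β U) : T α β x ∈ W α β U := by
  rw [W, mem_iUnion] at hx ⊢
  obtain ⟨n, y, hy, rfl⟩ := hx
  exact ⟨n + 1, y, hy, by rw [Function.iterate_succ_apply']⟩

lemma T_left {α β c x : ℝ} (hβ : 0 < β) (hα : 0 ≤ α) (hc : β * c + α = 1) (h0 : 0 ≤ x) (hx : x < c) :
    T α β x = β * x + α := by
  unfold T
  rw [Int.fract_eq_self]
  have := mul_nonneg hβ.le h0
  have := mul_lt_mul_of_pos_left hx hβ
  constructor <;> linarith

lemma T_right {α β c x : ℝ} (hβ : 0 < β) (hαβ : α + β ≤ 2) (hc : β * c + α = 1) (hx : c ≤ x)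
    (h1 : x < 1) : T α β x = β * x + α - 1 := by
  unfold T
  rw [← Int.fract_sub_one, Int.fract_eq_self]
  have := mul_le_mul_of_nonneg_left hx hβ.le
  have := mul_lt_mul_of_pos_left h1 hβ
  constructor <;> linarith

lemma image_sub {A : Set ℝ} (g : ℝ → ℝ) (hg : Continuous g) {u v : ℝ} (h : Ioo u v ⊆ closure A)
    (hA : ∀ x ∈ Ioo u v ∩ A, g x ∈ A) : g '' Ioo u v ⊆ closure A := by
  have h1 : Ioo u v ⊆ closure (Ioo u v ∩ A) := fun x hx =>
    isOpen_Ioo.inter_closure ⟨hx, h hx⟩
  calc g '' Ioo u v ⊆ g '' closure (Ioo u v ∩ A) := image_mono h1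
    _ ⊆ closure (g '' (Ioo u v ∩ A)) := image_closure_subset_closure_image hg
    _ ⊆ closure A := closure_mono (by rintro _ ⟨x, hx, rfl⟩; exact hA x hx)

lemma clos_left {α β c : ℝ} (hβ : 0 < β) (hα : 0 ≤ α) (hc : β * c + α = 1) (U : Set ℝ) (u v : ℝ)
    (hu : 0 ≤ u) (hv : v ≤ c) (h : Ioo u v ⊆ closure (W α β U)) :
    Ioo (β * u + α) (β * v + α) ⊆ closure (W α β U) := by
  intro y hy
  refine image_sub (fun x => β * x + α) (by fun_prop) h ?_ ⟨(y - α) / β, ⟨?_, ?_⟩, ?_⟩
  · rintro x ⟨hx1, hx2⟩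
    have h1 := W_inv α β U hx2
    rwa [T_left hβ hα hc (hu.trans hx1.1.le) (hx1.2.trans_le hv)] at h1
  · rw [lt_div_iff₀ hβ]; linarith [hy.1]
  · rw [div_lt_iff₀ hβ]; linarith [hy.2]
  · field_simp; ring

lemma clos_right {α β c : ℝ} (hβ : 0 < β) (hαβ : α + β ≤ 2) (hc : β * c + α = 1) (U : Set ℝ)
    (u v : ℝ) (hu : c ≤ u) (hv : v ≤ 1) (h : Ioo u v ⊆ closure (W α β U)) :
    Ioo (β * u + α - 1) (β * v + α - 1) ⊆ closure (W α β U) := by
  intro y hy
  refine image_sub (fun x => β * x + α - 1) (by fun_prop) h ?_ ⟨(y - α + 1) / β, ⟨?_, ?_⟩, ?_⟩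
  · rintro x ⟨hx1, hx2⟩
    have h1 := W_inv α β U hx2
    rwa [T_right hβ hαβ hc (hu.trans hx1.1.le) (hx1.2.trans_le hv)] at h1
  · rw [lt_div_iff₀ hβ]; linarith [hy.1]
  · rw [div_lt_iff₀ hβ]; linarith [hy.2]
  · field_simp; ring

lemma open_interval {U : Set ℝ} (hU : IsOpen U) (hne : (U ∩ Ico 0 1).Nonempty) :
    ∃ u v : ℝ, 0 ≤ u ∧ u < v ∧ v ≤ 1 ∧ Ioo u v ⊆ U := by
  obtain ⟨x, hxU, hx0, hx1⟩ := hne
  obtain ⟨ε, hε, hb⟩ := Metric.isOpen_iff.mp hU x hxU
  refine ⟨x, min (x + ε) 1, hx0, lt_min (by linarith) hx1, min_le_right _ _, fun y hy => hb ?_⟩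
  rw [Metric.mem_ball, Real.dist_eq, abs_of_pos (by linarith [hy.1])]
  have := lt_of_lt_of_le hy.2 (min_le_left _ _)
  linarith

/-- For `1 < β ≤ √2`, `0 ≤ α`, `α + β ≤ 2` and `α ≤ 1 - 1/β` or `α ≥ 1 + 1/β - β` the map
`βx + α mod 1` is topologically transitive. -/
theorem result (α β : ℝ) (hβ : 1 < β) (hβ2 : β ≤ Real.sqrt 2) (hα : 0 ≤ α) (hαβ : α + β ≤ 2)
    (h : α ≤ 1 - 1 / β ∨ 1 + 1 / β - β ≤ α) : TopologicallyTransitive α β := by
  intro U V hU hV hUne hVne
  have hβ0 : 0 < β := by linarith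
  have hβsq : β ^ 2 ≤ 2 := by
    have := Real.sq_sqrt (show (0:ℝ) ≤ 2 by norm_num)
    nlinarith [Real.sqrt_nonneg 2]
  have hinv : β * (1 / β) = 1 := by field_simp
  set D := closure (W α β U) with hD
  have hDc : IsClosed D := isClosed_closure
  set c := (1 - α) / β with hcdef
  have hc : β * c + α = 1 := by rw [hcdef]; field_simp; ring
  obtain ⟨u0, v0, hu0, huv0, hv0, hUD⟩ := open_interval hU hUne
  have hne : Ioo u0 v0 ⊆ D := by
    intro x hx
    apply subset_closure
    rw [W, mem_iUnion]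
    exact ⟨0, x, ⟨hUD hx, hu0.trans hx.1.le, hx.2.trans_le hv0⟩, rfl⟩
  have h1 := clos_left hβ0 hα hc U
  have h2 := clos_right hβ0 hαβ hc U
  have hall : Ioo 0 1 ⊆ D := by
    rcases h with h | h
    · refine main hβ hβsq hα ?_ c hc D hDc (fun u v hu _ hv => h1 u v hu hv)
        (fun u v hu _ hv => h2 u v hu hv) ⟨u0, v0, hu0, huv0, hv0, hne⟩
      have := mul_le_mul_of_nonneg_left h hβ0.le
      linarith
    · -- reflection
      have hrefl : ∀ u v : ℝ, Ioo u v ⊆ (fun x => 1 - x) ⁻¹' D ↔ Ioo (1 - v) (1 - u) ⊆ D := by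
        intro u v
        constructor
        · intro h3 x hx
          have := h3 (show 1 - x ∈ Ioo u v from ⟨by linarith [hx.2], by linarith [hx.1]⟩)
          simpa using this
        · intro h3 x hx
          exact h3 (show 1 - x ∈ Ioo (1 - v) (1 - u) from ⟨by linarith [hx.2], by linarith [hx.1]⟩)
      have h5 := main (α := 2 - α - β) (β := β) hβ hβsq (by linarith) (by
          have := mul_le_mul_of_nonneg_left h hβ0.le
          linarith) (1 - c) (by linarith) ((fun x => 1 - x) ⁻¹' D)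
        (hDc.preimage (by fun_prop)) (by
          intro u v hu huv hv h3
          rw [hrefl] at h3 ⊢
          have h4 := h2 (1 - v) (1 - u) (by linarith) (by linarith) h3
          have e1 : 1 - (β * v + (2 - α - β)) = β * (1 - v) + α - 1 := by ring
          have e2 : 1 - (β * u + (2 - α - β)) = β * (1 - u) + α - 1 := by ring
          rw [e1, e2]; exact h4) (by
          intro u v hu huv hv h3
          rw [hrefl] at h3 ⊢
          have h4 := h1 (1 - v) (1 - u) (by linarith) (by linarith) h3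
          have e1 : 1 - (β * v + (2 - α - β) - 1) = β * (1 - v) + α := by ring
          have e2 : 1 - (β * u + (2 - α - β) - 1) = β * (1 - u) + α := by ring
          rw [e1, e2]; exact h4) ⟨1 - v0, 1 - u0, by linarith, by linarith, by linarith, by
          rw [hrefl]
          simpa using hne⟩
      rw [hrefl] at h5
      simpa using h5
  -- conclusion
  obtain ⟨u, v, hu, huv, hv, hVs⟩ := open_interval hV hVne
  have hmid : (u + v) / 2 ∈ Ioo u v := ⟨by linarith, by linarith⟩
  have hmem : (u + v) / 2 ∈ closure (W α β U) := hall ⟨by linarith [hmid.1], by linarith [hmid.2]⟩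
  obtain ⟨y, hy1, hy2⟩ := mem_closure_iff.mp hmem (Ioo u v) isOpen_Ioo hmid
  have hy3 := W_sub α β U hy2
  rw [W, mem_iUnion] at hy2
  obtain ⟨n, hn⟩ := hy2
  exact ⟨n, y, hn, hVs hy1, hy3⟩

end Pool.Agent.Results.MP_ea58a7_an.SmallSlopes
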